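import Mathlib
import Pool.Agent.Helper707.Three

/-!
For every field `F` of characteristic zero and every `n ≥ 3` the equality problem for the variety
`M(n)` generated by the algebra of `n × n` matrices over `F` is undecidable. There is even one
finite list of premises such that the quasi-identities with these premises which hold in `M(n)`
form an undecidable set.

Idea of the proof. Take letters `Y, B, C, W` and finitely many letters `Z_t`. The relations
`B ^ A_t Z_t = Z_t C`, `Z_t W = B ^ E_t Z_0 W` and `Y B ^ r Z_1 = κ_r Y Z_(r + 2)` make the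
words `Y B ^ N Z_0 W` follow a generalised Collatz map with undecidable halting problem.
For a number that does not halt the word is nonzero in a suitable algebra acting on a module which
embeds into `n × n` matrices over commutative algebras (three matrix rows are enough, since the
first and the last row can be identified with the help of dual numbers).
-/

universe u

namespace Pool.Agent.Results.MP_79b5eb_lc.MnUndecidable

/-- A noncommutative polynomial without constant term and with rational coefficients: a finite
list of terms `((a, b), i, l)`, standing for `a / (b + 1)` times the word `x_i x_(l₁) x_(l₂) ⋯`. -/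
abbrev Poly := List ((ℤ × ℕ) × ℕ × List ℕ)

/-- The value of the nonempty word `x_i x_(l₁) x_(l₂) ⋯`. -/
def word {A : Type*} [Mul A] (v : ℕ → A) (i : ℕ) (l : List ℕ) : A :=
  l.foldl (fun a j => a * v j) (v i)

/-- The value of a noncommutative polynomial without constant term and with coefficients
in `F`, given as a list of terms (coefficient, first letter, other letters). -/
def eval (F : Type*) {A : Type*} [Mul A] [AddCommMonoid A] [SMul F A] (v : ℕ → A)
    (p : List (F × ℕ × List ℕ)) : A :=
  (p.map fun t => t.1 • word v t.2.1 t.2.2).sum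

/-- The algebra `A` belongs to the variety `M(n)`: every polynomial identity of `M_n(F)` holds
in `A`. -/
def InM (F : Type*) [Field F] (n : ℕ) (A : Type*) [NonUnitalRing A] [Module F A] : Prop :=
  ∀ p : List (F × ℕ × List ℕ), (∀ v : ℕ → Matrix (Fin n) (Fin n) F, eval F v p = 0) →
    ∀ v : ℕ → A, eval F v p = 0

/-- A polynomial with rational coefficients, over the field `F`. -/
def toF (F : Type*) [Field F] (p : Poly) : List (F × ℕ × List ℕ) :=
  p.map fun t => ((t.1.1 : F) / ((t.1.2 : F) + 1), t.2)

/-- The quasi-identity with the list of premises `q.1` and the conclusion `q.2` holds in every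
(associative, not necessarily unital) `F`-algebra of the variety `M(n)`. -/
def Holds (F : Type u) [Field F] (n : ℕ) (q : List Poly × Poly) : Prop :=
  ∀ (A : Type u) [NonUnitalRing A] [Module F A] [IsScalarTower F A A] [SMulCommClass F A A],
    InM F n A → ∀ v : ℕ → A, (∀ p ∈ q.1, eval F v (toF F p) = 0) → eval F v (toF F q.2) = 0

/-! ### formal polynomials -/

theorem word_map {A B : Type*} [Mul A] [Mul B] (φ : A → B) (hφ : ∀ a b, φ (a * b) = φ a * φ b)
    (v : ℕ → A) (i : ℕ) (l : List ℕ) : φ (word v i l) = word (fun j => φ (v j)) i l := by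
  have key : ∀ (l : List ℕ) (a : A), φ (l.foldl (fun a j => a * v j) a)
      = l.foldl (fun a j => a * φ (v j)) (φ a) := by
    intro l
    induction l with
    | nil => intro a; rfl
    | cons j l ih => intro a; simp only [List.foldl_cons]; rw [ih, hφ]
  exact key l _

theorem word_eq {B : Type*} [Monoid B] (v : ℕ → B) (i : ℕ) (l : List ℕ) :
    word v i l = ((i :: l).map v).prod := by
  have key : ∀ (l : List ℕ) (a : B), l.foldl (fun a j => a * v j) a = a * (l.map v).prod := by
    intro l
    induction l with
    | nil => intro a; simp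
    | cons j l ih => intro a; simp only [List.foldl_cons, List.map_cons, List.prod_cons]
                     rw [ih, mul_assoc]
  unfold word
  rw [key, List.map_cons, List.prod_cons]

theorem eval_map {F A B : Type*} [Field F] [NonUnitalRing A] [Module F A] [NonUnitalRing B]
    [Module F B] (φ : A →ₗ[F] B) (hφ : ∀ a b, φ (a * b) = φ a * φ b) (v : ℕ → A)
    (p : List (F × ℕ × List ℕ)) : φ (eval F v p) = eval F (fun j => φ (v j)) p := by
  unfold eval
  rw [map_list_sum, List.map_map]
  congr 1
  refine List.map_congr_left fun t _ => ?_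
  rw [Function.comp_apply, map_smul, word_map φ hφ]

/-- first letter and other letters -/
def pw : List ℕ → ℕ × List ℕ
  | [] => (0, [])
  | i :: l => (i, l)

/-- a term -/
def tm (c : ℤ) (l : List ℕ) : (ℤ × ℕ) × ℕ × List ℕ := ((c, 0), pw l)

theorem eval_two {F B : Type*} [Field F] [Ring B] [Algebra F B] (v : ℕ → B) (c : ℤ)
    (l l' : List ℕ) (h : l ≠ []) (h' : l' ≠ []) :
    eval F v (toF F [tm 1 l, tm c l']) = (l.map v).prod + (c : F) • (l'.map v).prod := by
  obtain ⟨i, l, rfl⟩ := List.exists_cons_of_ne_nil h
  obtain ⟨j, l', rfl⟩ := List.exists_cons_of_ne_nil h'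
  simp [eval, toF, tm, pw, word_eq]

theorem eval_one {F B : Type*} [Field F] [Ring B] [Algebra F B] (v : ℕ → B)
    (l : List ℕ) (h : l ≠ []) :
    eval F v (toF F [tm 1 l]) = (l.map v).prod := by
  obtain ⟨i, l, rfl⟩ := List.exists_cons_of_ne_nil h
  simp [eval, toF, tm, pw, word_eq]

open Pool.Agent.Helper707 Pool.Agent.Helper707.Rel

/-- transfer relation -/
def pT (Y : Sys) (t : ℕ) : Poly :=
  [tm 1 (List.replicate (Three.A Y (t + 1)) 1 ++ [t + 5]), tm (-1) [t + 5, 2]]

/-- row relation -/
def pR (Y : Sys) (t : ℕ) : Poly :=
  [tm 1 [t + 5, 3], tm (-1) (List.replicate (Three.E Y (t + 1)) 1 ++ [4, 3])]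

/-- left relation -/
def pL (Y : Sys) (r : ℕ) : Poly :=
  [tm 1 (0 :: (List.replicate r 1 ++ [5])), tm (-(Three.kap Y r : ℤ)) [0, r + 6]]

/-- all premises -/
def prem (Y : Sys) : List Poly :=
  (List.range (Y.m + 1)).map (pT Y) ++ ((List.range (Y.m + 1)).map (pR Y) ++
    (List.range Y.m).map (pL Y))

/-- the conclusions -/
def concl (N : ℕ) : Poly := [tm 1 (0 :: (List.replicate N 1 ++ [4, 3]))]

section

variable {F B : Type*} [Field F] [Ring B] [Algebra F B] (v : ℕ → B)

theorem eval_pT (Y : Sys) (t : ℕ) : eval F v (toF F (pT Y t))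
    = v 1 ^ (Three.A Y (t + 1)) * v (t + 5) - v (t + 5) * v 2 := by
  rw [pT, eval_two _ _ _ _ (by simp) (by simp)]
  simp [sub_eq_add_neg]

theorem eval_pR (Y : Sys) (t : ℕ) : eval F v (toF F (pR Y t))
    = v (t + 5) * v 3 - v 1 ^ (Three.E Y (t + 1)) * v 4 * v 3 := by
  rw [pR, eval_two _ _ _ _ (by simp) (by simp)]
  simp [sub_eq_add_neg, mul_assoc]

theorem eval_pL (Y : Sys) (r : ℕ) : eval F v (toF F (pL Y r))
    = v 0 * v 1 ^ r * v 5 - (Three.kap Y r : F) • (v 0 * v (r + 6)) := by
  rw [pL, eval_two _ _ _ _ (by simp) (by simp)]
  simp [sub_eq_add_neg, mul_assoc]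

theorem eval_concl (N : ℕ) : eval F v (toF F (concl N)) = Three.Wd v N := by
  rw [concl, eval_one _ _ (by simp), Three.Wd]
  simp [mul_assoc]

end

/-- soundness: no identities are used -/
theorem sound (F : Type u) [Field F] {Y : Sys} (hm : 0 < Y.m) {N : ℕ} (hN : Y.Halts N)
    (A : Type u) [NonUnitalRing A] [Module F A] [IsScalarTower F A A] [SMulCommClass F A A]
    (v : ℕ → A) (h : ∀ p ∈ prem Y, eval F v (toF F p) = 0) : eval F v (toF F (concl N)) = 0 := by
  let φ : A →ₗ[F] Unitization F A :=
    { toFun := fun a => (a : Unitization F A)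
      map_add' := fun a b => Unitization.inr_add F a b
      map_smul' := fun c a => Unitization.inr_smul F c a }
  have hφ : ∀ a b, φ (a * b) = φ a * φ b := fun a b => Unitization.inr_mul F a b
  have hinj : ∀ a, φ a = 0 → a = 0 := by
    intro a ha
    exact Unitization.inr_injective (R := F) (ha.trans (Unitization.inr_zero F).symm)
  apply hinj
  rw [eval_map φ hφ, eval_concl]
  have hz : ∀ p ∈ prem Y, eval F (fun j => φ (v j)) (toF F p) = 0 := by
    intro p hp
    rw [← eval_map φ hφ, h p hp, map_zero]
  have hR : Three.Rels Y (fun j => φ (v j)) := by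
    refine ⟨?_, ?_, ?_⟩
    · intro t ht
      have h1 := hz (pT Y t) (by
        unfold prem
        rw [List.mem_append]; left
        exact List.mem_map_of_mem (List.mem_range.2 ht))
      rw [eval_pT, sub_eq_zero] at h1
      exact h1
    · intro t ht
      have h1 := hz (pR Y t) (by
        unfold prem
        rw [List.mem_append, List.mem_append]; right; left
        exact List.mem_map_of_mem (List.mem_range.2 ht))
      rw [eval_pR, sub_eq_zero] at h1
      exact h1
    · intro r hr
      have h1 := hz (pL Y r) (by
        unfold prem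
        rw [List.mem_append, List.mem_append]; right; right
        exact List.mem_map_of_mem (List.mem_range.2 hr))
      rw [eval_pL, sub_eq_zero, Nat.cast_smul_eq_nsmul] at h1
      exact h1
  exact hR.halts_zero hm hN

theorem complete (F : Type u) [Field F] [CharZero F] {n : ℕ} (hn : 3 ≤ n) {Y : Sys} {N : ℕ}
    (h : Holds F n (prem Y, concl N)) : Y.Halts N := by
  by_contra hcon
  set J := Three.J F Y with hJ
  let π : FreeAlgebra F ℕ →ₐ[F] J.ringCon.Quotient := J.ringCon.mkₐ F
  have hker : ∀ g, π g = 0 ↔ g ∈ J := by
    intro g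
    have h1 : g ∈ TwoSidedIdeal.ker J.ringCon.mk' ↔ g ∈ J := by
      rw [TwoSidedIdeal.ker_ringCon_mk']
    rw [← h1, TwoSidedIdeal.mem_ker]
    rfl
  have hsurj : Function.Surjective π := RingCon.mkₐ_surjective _
  have hev : ∀ (a : ℕ → FreeAlgebra F ℕ) (p : List (F × ℕ × List ℕ)),
      π (eval F a p) = eval F (fun j => π (a j)) p := fun a p =>
    eval_map π.toLinearMap (fun x y => map_mul π x y) a p
  have hM : InM F n J.ringCon.Quotient := by
    intro p hp v
    choose a ha using fun j => hsurj (v j)
    have hv : v = fun j => π (a j) := funext fun j => (ha j).symm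
    rw [hv, ← hev, hker]
    have h1 : eval F (FreeAlgebra.ι F : ℕ → FreeAlgebra F ℕ) p ∈ Three.idents F n ℕ := by
      intro A
      have := eval_map (FreeAlgebra.lift F A).toLinearMap
        (fun x y => map_mul (FreeAlgebra.lift F A) x y) (FreeAlgebra.ι F) p
      refine this.trans ?_
      have h2 : (fun j => (FreeAlgebra.lift F A).toLinearMap (FreeAlgebra.ι F j)) = A := by
        funext j
        exact FreeAlgebra.lift_ι_apply A j
      rw [h2]
      exact hp A
    have h2 := Three.ident_mem_J hn Y h1 a
    have h3 := eval_map (FreeAlgebra.lift F a).toLinearMap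
        (fun x y => map_mul (FreeAlgebra.lift F a) x y) (FreeAlgebra.ι F) p
    have h4 : (fun j => (FreeAlgebra.lift F a).toLinearMap (FreeAlgebra.ι F j)) = a := by
      funext j
      exact FreeAlgebra.lift_ι_apply a j
    rw [h4] at h3
    rw [← h3]
    exact h2
  have hfin := h J.ringCon.Quotient hM (fun j => π (FreeAlgebra.ι F j)) (by
    intro p hp
    rw [← hev, hker]
    unfold prem at hp
    rw [List.mem_append, List.mem_append, List.mem_map, List.mem_map, List.mem_map] at hp
    rcases hp with ⟨t, ht, rfl⟩ | ⟨t, ht, rfl⟩ | ⟨r, hr, rfl⟩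
    · rw [eval_pT]; exact Three.relT_mem (List.mem_range.1 ht)
    · rw [eval_pR]; exact Three.relR_mem (List.mem_range.1 ht)
    · rw [eval_pL]; exact Three.relL_mem (List.mem_range.1 hr))
  rw [← hev, hker, eval_concl] at hfin
  exact Three.Wd_not_mem hcon hfin

theorem primrec_concl : Primrec concl := by
  have h1 : Primrec fun N : ℕ => List.replicate N 1 ++ [4, 3] := by
    have h2 : Primrec (Nat.rec (motive := fun _ => List ℕ) [4, 3] (fun _ ih => 1 :: ih)) :=
      Primrec.nat_rec₁ _ (Primrec.list_cons.comp (Primrec.const 1) Primrec.snd)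
    refine h2.of_eq fun k => ?_
    induction k with
    | zero => rfl
    | succ k ih => rw [List.replicate_succ, List.cons_append, ← ih]
  have h3 : Primrec fun N : ℕ =>
      [(((1, 0) : ℤ × ℕ), ((0, List.replicate N 1 ++ [4, 3]) : ℕ × List ℕ))] :=
    Primrec.list_cons.comp (Primrec.pair (Primrec.const _)
      (Primrec.pair (Primrec.const 0) h1)) (Primrec.const [])
  exact h3

/-- **Main theorem.** Let `F` be a field of characteristic zero and `n ≥ 3`. The equality problem
for the variety `M(n)` is undecidable: no algorithm decides, for a given quasi-identity (with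
rational coefficients), whether it holds in every algebra of `M(n)`. Moreover the premises of
the quasi-identities can be fixed, so that a fixed finitely presented algebra of `M(n)` has an
undecidable word problem. -/
theorem result (F : Type u) [Field F] [CharZero F] (n : ℕ) (hn : 3 ≤ n) :
    (¬ ComputablePred fun q : List Poly × Poly => Holds F n q) ∧
      ∃ premises : List Poly, ¬ ComputablePred fun p : Poly => Holds F n (premises, p) := by
  obtain ⟨Y, S, p, hm, hund⟩ := Pool.Agent.Helper707.Num.exists_undecidable_sys
  have main : ¬ ComputablePred fun q : Poly => Holds F n (prem Y, q) := by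
    intro hc
    apply hund
    obtain ⟨d, hd, hdp⟩ := ComputablePred.computable_iff.1 hc
    have hpow : Primrec fun k : ℕ => S * p ^ k := by
      have h1 : Primrec fun k : ℕ => p ^ k := by
        have h2 : Primrec (Nat.rec (motive := fun _ => ℕ) 1 (fun _ ih => ih * p)) :=
          Primrec.nat_rec₁ 1 (Primrec.nat_mul.comp Primrec.snd (Primrec.const p))
        refine h2.of_eq fun k => ?_
        induction k with
        | zero => rfl
        | succ k ih => rw [pow_succ, ← ih]
      exact Primrec.nat_mul.comp (Primrec.const S) h1
    have hgl : Computable fun k : ℕ => concl (S * p ^ k) :=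
      (primrec_concl.comp hpow).to_comp
    rw [ComputablePred.computable_iff]
    refine ⟨fun k => d (concl (S * p ^ k)), hd.comp hgl, ?_⟩
    funext k
    have h3 := congrFun hdp (concl (S * p ^ k))
    rw [← h3]
    refine propext ⟨fun hN => ?_, fun h => complete F hn h⟩
    intro A _ _ _ _ _ v hv
    exact sound F hm hN A v hv
  refine ⟨fun hc => main ?_, prem Y, main⟩
  obtain ⟨d, hd, hdp⟩ := ComputablePred.computable_iff.1 hc
  rw [ComputablePred.computable_iff]
  refine ⟨fun q => d (prem Y, q), hd.comp (Computable.pair (Computable.const _) Computable.id), ?_⟩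
  funext q
  exact congrFun hdp (prem Y, q)

end Pool.Agent.Results.MP_79b5eb_lc.MnUndecidable
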